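import Pool.Agent.PRP.Stmts

/-!
COR: the specialisation of the correspondence, from REG and CPR. The primitive element is
multiplied by a common denominator, so that its equation has coefficients in the ring `A`.
-/

set_option autoImplicit false

open scoped TensorProduct

namespace Pool.Agent.PRP.H63

open MvPolynomial Pool.Agent.PRP

section Scale

variable {R : Type*} [CommRing R]

/-- `Y ↦ c Y` -/
noncomputable def sc (c : R) : Polynomial R →+* Polynomial R :=
  Polynomial.eval₂RingHom Polynomial.C (Polynomial.C c * Polynomial.X)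

theorem sc_C (c a : R) : sc c (Polynomial.C a) = Polynomial.C a := by
  unfold sc
  rw [Polynomial.coe_eval₂RingHom, Polynomial.eval₂_C]

theorem sc_X (c : R) : sc c Polynomial.X = Polynomial.C c * Polynomial.X := by
  unfold sc
  rw [Polynomial.coe_eval₂RingHom, Polynomial.eval₂_X]

theorem sc_sc {c d : R} (h : c * d = 1) (Q : Polynomial R) : sc c (sc d Q) = Q := by
  have h1 : (sc c).comp (sc d) = RingHom.id (Polynomial R) := by
    apply Polynomial.ringHom_ext
    · intro a
      rw [RingHom.comp_apply, sc_C, sc_C, RingHom.id_apply]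
    · rw [RingHom.comp_apply, sc_X, map_mul, sc_C, sc_X, RingHom.id_apply, ← mul_assoc,
        ← Polynomial.C_mul, mul_comm d c, h, Polynomial.C_1, one_mul]
  calc sc c (sc d Q) = ((sc c).comp (sc d)) Q := rfl
    _ = Q := by rw [h1, RingHom.id_apply]

/-- `Y ↦ c Y` for a unit `c` -/
noncomputable def scE {c d : R} (h : c * d = 1) : Polynomial R ≃+* Polynomial R where
  toFun := sc c
  invFun := sc d
  left_inv Q := sc_sc (by rw [mul_comm]; exact h) Q
  right_inv Q := sc_sc h Q
  map_mul' := map_mul (sc c)
  map_add' := map_add (sc c)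

theorem eval_sc {S : Type*} [CommRing S] (f : R →+* S) (r : S) (c : R) (Q : Polynomial R) :
    Polynomial.eval₂ f r (sc c Q) = Polynomial.eval₂ f (f c * r) Q := by
  have h1 : (Polynomial.eval₂RingHom f r).comp (sc c) = Polynomial.eval₂RingHom f (f c * r) := by
    apply Polynomial.ringHom_ext
    · intro a
      rw [RingHom.comp_apply, sc_C, Polynomial.coe_eval₂RingHom, Polynomial.coe_eval₂RingHom,
        Polynomial.eval₂_C, Polynomial.eval₂_C]
    · rw [RingHom.comp_apply, sc_X, map_mul, Polynomial.coe_eval₂RingHom,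
        Polynomial.coe_eval₂RingHom, Polynomial.eval₂_C, Polynomial.eval₂_X, Polynomial.eval₂_X]
  exact RingHom.congr_fun h1 Q

theorem sc_scaleRoots (c : R) (H : Polynomial R) :
    sc c (H.scaleRoots c) = Polynomial.C c ^ H.natDegree * H := by
  have h := Polynomial.scaleRoots_eval₂_mul (p := H) (Polynomial.C : R →+* Polynomial R)
    Polynomial.X c
  rw [Polynomial.eval₂_C_X] at h
  exact h

theorem sc_dvd {c d : R} (h : c * d = 1) (P Q : Polynomial R) : sc c P ∣ sc c Q ↔ P ∣ Q := by
  constructor
  · rintro ⟨Z, hZ⟩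
    refine ⟨sc d Z, ?_⟩
    have h1 := congrArg (sc d) hZ
    have h2 : d * c = 1 := by rw [mul_comm]; exact h
    rw [map_mul, sc_sc h2, sc_sc h2] at h1
    exact h1
  · rintro ⟨Z, rfl⟩
    exact ⟨sc c Z, map_mul _ _ _⟩

theorem irr_scaleRoots {c d : R} (h : c * d = 1) {H : Polynomial R} (hH : Irreducible H) :
    Irreducible (H.scaleRoots c) := by
  have h1 : Irreducible (scE h (H.scaleRoots c)) := by
    show Irreducible (sc c (H.scaleRoots c))
    rw [sc_scaleRoots]
    apply (irreducible_isUnit_mul _).2 hH
    apply IsUnit.pow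
    apply IsUnit.map
    exact IsUnit.of_mul_eq_one d h
  exact (MulEquiv.irreducible_iff (scE h)).1 h1

end Scale

section Clear

variable {A L : Type} [CommRing A] [IsDomain A] [Field L] [Algebra A L] [IsFractionRing A L]

/-- common denominators of the coefficients -/
theorem clearMv {σ : Type} (P : MvPolynomial σ L) :
    ∃ (b : A) (P' : MvPolynomial σ A), b ≠ 0 ∧
      map (algebraMap A L) P' = C (algebraMap A L b) * P := by
  induction P using MvPolynomial.induction_on with
  | C x =>
    obtain ⟨y, b, hb, rfl⟩ := IsFractionRing.div_surjective (A := A) x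
    refine ⟨b, C y, nonZeroDivisors.ne_zero hb, ?_⟩
    rw [map_C, ← C_mul]
    congr 1
    have hb' : algebraMap A L b ≠ 0 := by
      intro h
      exact nonZeroDivisors.ne_zero hb ((IsFractionRing.injective A L) (by rw [h, map_zero]))
    rw [mul_div_cancel₀ _ hb']
  | add p q hp hq =>
    obtain ⟨b, p', hb, hp'⟩ := hp
    obtain ⟨c, q', hc, hq'⟩ := hq
    refine ⟨b * c, C c * p' + C b * q', mul_ne_zero hb hc, ?_⟩
    rw [map_add, map_mul, map_mul, map_C, map_C, hp', hq', map_mul, C_mul]
    ring
  | mul_X p n hp =>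
    obtain ⟨b, p', hb, hp'⟩ := hp
    refine ⟨b, p' * X n, hb, ?_⟩
    rw [map_mul, map_X, hp']
    ring

theorem clearPoly {σ : Type} (P : Polynomial (MvPolynomial σ L)) :
    ∃ (b : A) (P' : Polynomial (MvPolynomial σ A)), b ≠ 0 ∧
      P'.map (map (algebraMap A L)) = Polynomial.C (C (algebraMap A L b)) * P := by
  induction P using Polynomial.induction_on' with
  | add p q hp hq =>
    obtain ⟨b, p', hb, hp'⟩ := hp
    obtain ⟨c, q', hc, hq'⟩ := hq
    refine ⟨b * c, Polynomial.C (C c) * p' + Polynomial.C (C b) * q', mul_ne_zero hb hc, ?_⟩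
    rw [Polynomial.map_add, Polynomial.map_mul, Polynomial.map_mul, Polynomial.map_C,
      Polynomial.map_C, map_C, map_C, hp', hq', map_mul, C_mul, Polynomial.C_mul]
    ring
  | monomial n x =>
    obtain ⟨b, x', hb, hx'⟩ := clearMv (A := A) x
    refine ⟨b, Polynomial.monomial n x', hb, ?_⟩
    rw [Polynomial.map_monomial, hx', Polynomial.C_mul_monomial]

end Clear

section Elem

variable {A L M : Type} [CommRing A] [IsDomain A] [Field L] [Algebra A L] [IsFractionRing A L]
  [Field M] [Algebra L M] [Algebra A M] [IsScalarTower A L M]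

theorem algA_inj (A L M : Type) [CommRing A] [IsDomain A] [Field L] [Algebra A L]
    [IsFractionRing A L] [Field M] [Algebra L M] [Algebra A M] [IsScalarTower A L M] :
    Function.Injective (algebraMap A M) := by
  rw [IsScalarTower.algebraMap_eq A L M]
  exact (algebraMap L M).injective.comp (IsFractionRing.injective A L)

/-- an element of `L(w)` is a quotient with coefficients in `A` -/
theorem quot {r : ℕ} (w : Fin r → M) (hw : IntermediateField.adjoin L (Set.range w) = ⊤) (m : M) :
    ∃ D N : MvPolynomial (Fin r) A, aeval w D ≠ 0 ∧ m * aeval w D = aeval w N := by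
  have hm : m ∈ IntermediateField.adjoin L (Set.range w) := by
    rw [hw]; exact IntermediateField.mem_top
  obtain ⟨p, q, hpq⟩ := (IntermediateField.mem_adjoin_range_iff L w m).1 hm
  by_cases hq : aeval w q = 0
  · refine ⟨1, 0, ?_, ?_⟩
    · rw [map_one]; exact one_ne_zero
    · rw [map_zero, hpq, hq, div_zero, zero_mul]
  · obtain ⟨b, p', hb, hp'⟩ := clearMv (A := A) p
    obtain ⟨c, q', hc, hq'⟩ := clearMv (A := A) q
    have e1 : aeval w p' = algebraMap A M b * aeval w p := by
      rw [← aeval_map_algebraMap L w p', hp', map_mul, aeval_C, ← IsScalarTower.algebraMap_apply]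
    have e2 : aeval w q' = algebraMap A M c * aeval w q := by
      rw [← aeval_map_algebraMap L w q', hq', map_mul, aeval_C, ← IsScalarTower.algebraMap_apply]
    have hb' : algebraMap A M b ≠ 0 := fun h => hb (algA_inj A L M (by rw [h, map_zero]))
    have hc' : algebraMap A M c ≠ 0 := fun h => hc (algA_inj A L M (by rw [h, map_zero]))
    refine ⟨C b * q', C c * p', ?_, ?_⟩
    · rw [map_mul, aeval_C, e2]
      exact mul_ne_zero hb' (mul_ne_zero hc' hq)
    · rw [map_mul, map_mul, aeval_C, aeval_C, e1, e2, hpq]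
      field_simp

theorem ev_map {s : ℕ} (t : Fin s → M) (θ : M) (P : Polynomial (MvPolynomial (Fin s) A)) :
    ev (A := L) t θ (P.map (map (algebraMap A L))) = ev (A := A) t θ P := by
  unfold ev
  rw [Polynomial.coe_eval₂RingHom, Polynomial.coe_eval₂RingHom, Polynomial.eval₂_map]
  congr 1
  ext x
  · show aeval t (map (algebraMap A L) (C x)) = aeval t (C x)
    rw [aeval_map_algebraMap]
  · show aeval t (map (algebraMap A L) (X x)) = aeval t (X x)
    rw [aeval_map_algebraMap]

end Elem

theorem cor (hREG : RegStmt) (hCPR : CprStmt) : CorStmt := by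
  intro k A L M _ _ _ _ _ _ _ _ _ _ _ _ _ _ s n r t w G hn hdom ht hfin hw hG
  obtain ⟨θ, H, hmon, hdeg, hker, hgen, hirr⟩ := hREG L M s n t hdom ht hn hfin
  obtain ⟨b, H', hb, hH'⟩ := clearPoly (A := A) H
  have hbL : algebraMap A L b ≠ 0 := by
    intro h
    exact hb ((IsFractionRing.injective A L) (by rw [h, map_zero]))
  have hbM : algebraMap A M b ≠ 0 := fun h => hb (algA_inj A L M (by rw [h, map_zero]))
  have hinjA : Function.Injective (algebraMap A L) := IsFractionRing.injective A L
  have hinjMv : Function.Injective (map (σ := Fin s) (algebraMap A L)) := map_injective _ hinjA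
  -- the scaling
  have hcd : (C (algebraMap A L b) : MvPolynomial (Fin s) L) * C (algebraMap A L b)⁻¹ = 1 := by
    rw [← C_mul, mul_inv_cancel₀ hbL, C_1]
  have hdc : (C (algebraMap A L b)⁻¹ : MvPolynomial (Fin s) L) * C (algebraMap A L b) = 1 := by
    rw [mul_comm]; exact hcd
  have hac : aeval t (C (algebraMap A L b) : MvPolynomial (Fin s) L) = algebraMap A M b := by
    rw [aeval_C, ← IsScalarTower.algebraMap_apply]
  have hevsc : ∀ Q : Polynomial (MvPolynomial (Fin s) L),
      ev t θ (sc (C (algebraMap A L b)) Q) = ev t (algebraMap A M b * θ) Q := by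
    intro Q
    unfold ev
    rw [Polynomial.coe_eval₂RingHom, Polynomial.coe_eval₂RingHom, eval_sc]
    congr 1
    show aeval t (C (algebraMap A L b) : MvPolynomial (Fin s) L) * θ = _
    rw [hac]
  -- the equation over `A`
  have hlift : H.scaleRoots (C (algebraMap A L b)) ∈ Polynomial.lifts
      (map (σ := Fin s) (algebraMap A L)) := by
    rw [Polynomial.lifts_iff_coeff_lifts]
    intro i
    rw [Polynomial.coeff_scaleRoots]
    rcases lt_trichotomy i H.natDegree with hi | hi | hi
    · refine ⟨H'.coeff i * C b ^ (H.natDegree - i - 1), ?_⟩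
      have h1 : map (algebraMap A L) (H'.coeff i) = C (algebraMap A L b) * H.coeff i := by
        have := congrArg (fun P => Polynomial.coeff P i) hH'
        simpa only [Polynomial.coeff_map, Polynomial.coeff_C_mul] using this
      rw [map_mul, h1, map_pow, map_C]
      have h2 : H.natDegree - i = (H.natDegree - i - 1) + 1 := by omega
      conv_rhs => rw [h2, pow_succ]
      ring
    · refine ⟨1, ?_⟩
      rw [hi, Polynomial.coeff_natDegree, hmon.leadingCoeff, Nat.sub_self, pow_zero, mul_one,
        map_one]
    · refine ⟨0, ?_⟩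
      rw [Polynomial.coeff_eq_zero_of_natDegree_lt hi, zero_mul, map_zero]
  obtain ⟨HA, hHA, hHAdeg, hHAmon⟩ := Polynomial.lifts_and_natDegree_eq_and_monic hlift
    ((Polynomial.monic_scaleRoots_iff _).2 hmon)
  -- quotients
  have hq : ∀ j : Fin s, ∃ D N : MvPolynomial (Fin r) A, aeval w D ≠ 0 ∧
      t j * aeval w D = aeval w N := fun j => quot (L := L) w hw (t j)
  choose Dt Nt hDt hNt using hq
  obtain ⟨D0, N0, hD0, hN0⟩ := quot (A := A) (L := L) w hw (algebraMap A M b * θ)
  have : FaithfulSMul A M := (faithfulSMul_iff_algebraMap_injective A M).2 (algA_inj A L M)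
  refine hCPR k A L M s n r t (algebraMap A M b * θ) HA w ((∏ j, Dt j) * D0)
    ((∏ j, Dt j) * N0) (fun j => Nt j * (∏ i ∈ Finset.univ.erase j, Dt i) * D0) G hn
    (ht.restrictScalars hinjA) hHAmon ?_ ?_ ?_ ?_ ?_ ?_ ?_ hG
  · rw [hHAdeg, Polynomial.natDegree_scaleRoots, hdeg]
  · -- kernel
    intro P
    rw [← ev_map (L := L), ← hevsc, hker, ← Polynomial.map_dvd_map _ hinjMv hHAmon, hHA,
      ← sc_dvd hcd (H.scaleRoots _), sc_scaleRoots]
    constructor
    · rintro ⟨Z, hZ⟩
      refine ⟨Polynomial.C (C (algebraMap A L b)⁻¹) ^ H.natDegree * Z, ?_⟩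
      rw [hZ]
      have h1 : (Polynomial.C (C (algebraMap A L b)) : Polynomial (MvPolynomial (Fin s) L))
          ^ H.natDegree * Polynomial.C (C (algebraMap A L b)⁻¹) ^ H.natDegree = 1 := by
        rw [← mul_pow, ← Polynomial.C_mul, hcd, Polynomial.C_1, one_pow]
      calc H * Z = (Polynomial.C (C (algebraMap A L b)) ^ H.natDegree
            * Polynomial.C (C (algebraMap A L b)⁻¹) ^ H.natDegree) * (H * Z) := by
              rw [h1, one_mul]
        _ = _ := by ring
    · rintro ⟨Z, hZ⟩
      exact ⟨Polynomial.C (C (algebraMap A L b)) ^ H.natDegree * Z, by rw [hZ]; ring⟩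
  · -- generation
    intro m
    obtain ⟨q, P, hq0, hqP⟩ := hgen m
    obtain ⟨c1, q1, hc1, hq1⟩ := clearMv (A := A) q
    obtain ⟨c2, P2, hc2, hP2⟩ := clearPoly (A := A) (sc (C (algebraMap A L b)⁻¹) P)
    have hc1L : algebraMap A L c1 ≠ 0 := by
      intro h
      exact hc1 (hinjA (by rw [h, map_zero]))
    refine ⟨C c2 * q1, Polynomial.C (C c1) * P2, ?_, ?_⟩
    · have h1 : (C c2 : MvPolynomial (Fin s) A) ≠ 0 := by
        rw [Ne, C_eq_zero]; exact hc2
      have h2 : q1 ≠ 0 := by
        rintro rfl
        rw [map_zero] at hq1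
        have h3 : (C (algebraMap A L c1) : MvPolynomial (Fin s) L) ≠ 0 := by
          rw [Ne, C_eq_zero]; exact hc1L
        exact mul_ne_zero h3 hq0 hq1.symm
      exact mul_ne_zero h1 h2
    · have e1 : aeval t q1 = algebraMap A M c1 * aeval t q := by
        rw [← aeval_map_algebraMap L t q1, hq1, map_mul, aeval_C,
          ← IsScalarTower.algebraMap_apply]
      have e2 : ev (A := A) t (algebraMap A M b * θ) P2
          = algebraMap A M c2 * ev (A := L) t θ P := by
        rw [← ev_map (L := L), hP2, map_mul, ← hevsc (sc (C (algebraMap A L b)⁻¹) P), sc_sc hcd]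
        congr 1
        unfold ev
        rw [Polynomial.coe_eval₂RingHom, Polynomial.eval₂_C]
        show aeval t (C (algebraMap A L c2) : MvPolynomial (Fin s) L) = _
        rw [aeval_C, ← IsScalarTower.algebraMap_apply]
      have e3 : ev (A := A) t (algebraMap A M b * θ) (Polynomial.C (C c1))
          = algebraMap A M c1 := by
        unfold ev
        rw [Polynomial.coe_eval₂RingHom, Polynomial.eval₂_C]
        show aeval t (C c1 : MvPolynomial (Fin s) A) = _
        rw [aeval_C]
      rw [map_mul, map_mul, aeval_C, e1, e2, e3, ← hqP]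
      ring
  · -- irreducible
    have h1 : HA.map (map ((algebraMap L (AlgebraicClosure L)).comp (algebraMap A L)))
        = (H.map (map (algebraMap L (AlgebraicClosure L)))).scaleRoots
          (map (algebraMap L (AlgebraicClosure L)) (C (algebraMap A L b))) := by
      rw [← Polynomial.map_scaleRoots _ _ _ (by
        rw [hmon.leadingCoeff, map_one]; exact one_ne_zero), ← hHA, Polynomial.map_map]
      congr 1
      ext x
      · simp
      · simp
    rw [h1]
    have h2 : map (σ := Fin s) (algebraMap L (AlgebraicClosure L)) (C (algebraMap A L b))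
        * map (algebraMap L (AlgebraicClosure L)) (C (algebraMap A L b)⁻¹) = 1 := by
      rw [← map_mul, hcd, map_one]
    exact irr_scaleRoots h2 hirr
  · rw [map_mul, map_prod]
    exact mul_ne_zero (Finset.prod_ne_zero_iff.2 fun j _ => hDt j) hD0
  · intro j
    have h1 : (∏ i, Dt i) = Dt j * ∏ i ∈ Finset.univ.erase j, Dt i :=
      (Finset.mul_prod_erase Finset.univ Dt (Finset.mem_univ j)).symm
    rw [h1]
    simp only [map_mul]
    rw [← hNt j]
    ring
  · simp only [map_mul]
    rw [← hN0]
    ring

end Pool.Agent.PRP.H63
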