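import Pool.Agent.PRP.Stmts

/-!
REG: the equation of a regular extension.
-/

set_option autoImplicit false

open scoped TensorProduct

namespace Pool.Agent.PRP.H63

open MvPolynomial Pool.Agent.PRP

section PartA

/-- a primitive element which is integral over `R` -/
theorem primInt (R K M : Type) [CommRing R] [IsDomain R] [IsIntegrallyClosed R] [Field K]
    [Field M] [CharZero K] [Algebra R K] [IsFractionRing R K] [Algebra K M] [Algebra R M]
    [IsScalarTower R K M] [FiniteDimensional K M] :
    ∃ (θ : M) (H : Polynomial R), H.Monic ∧ H.natDegree = Module.finrank K M ∧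
      (∀ P : Polynomial R, Polynomial.aeval θ P = 0 ↔ H ∣ P) ∧
      (∀ m : M, ∃ (q : R) (P : Polynomial R), q ≠ 0 ∧
        m * algebraMap R M q = Polynomial.aeval θ P) := by
  have hinj : Function.Injective (algebraMap R M) := by
    rw [IsScalarTower.algebraMap_eq R K M]
    exact (algebraMap K M).injective.comp (IsFractionRing.injective R K)
  obtain ⟨α, hα⟩ := Field.exists_primitive_element K M
  have halgK : IsAlgebraic K α := Algebra.IsAlgebraic.isAlgebraic α
  have halgR : IsAlgebraic R α := (IsFractionRing.isAlgebraic_iff R K M).2 halgK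
  obtain ⟨y, hy, hint⟩ := halgR.exists_integral_multiple
  have hyK : algebraMap R K y ≠ 0 := by
    intro h
    exact hy (IsFractionRing.injective R K (by rw [h, map_zero]))
  set θ : M := y • α with hθ
  have hθ' : θ = algebraMap K M (algebraMap R K y) * α := by
    rw [hθ, Algebra.smul_def, IsScalarTower.algebraMap_apply R K M]
  have htop : IntermediateField.adjoin K {θ} = ⊤ := by
    rw [eq_top_iff, ← hα, IntermediateField.adjoin_le_iff]
    intro z hz
    rw [Set.mem_singleton_iff] at hz
    subst hz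
    have h1 : z = algebraMap K M (algebraMap R K y)⁻¹ * θ := by
      rw [hθ', ← mul_assoc, ← map_mul, inv_mul_cancel₀ hyK, map_one, one_mul]
    show z ∈ IntermediateField.adjoin K {θ}
    rw [h1]
    exact mul_mem ((IntermediateField.adjoin K {θ}).algebraMap_mem _)
      (IntermediateField.subset_adjoin K {θ} (Set.mem_singleton θ))
  have : Module.IsTorsionFree R M := by
    rw [Module.isTorsionFree_iff_algebraMap_injective]
    exact hinj
  have hK : minpoly K θ = (minpoly R θ).map (algebraMap R K) :=
    minpoly.isIntegrallyClosed_eq_field_fractions' K hint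
  refine ⟨θ, minpoly R θ, minpoly.monic hint, ?_, ?_, ?_⟩
  · rw [← (Field.primitive_element_iff_minpoly_natDegree_eq K θ).1 htop, hK,
      (minpoly.monic hint).natDegree_map]
  · intro P
    exact minpoly.isIntegrallyClosed_dvd_iff hint P
  · intro m
    have halg : IsAlgebraic K θ := Algebra.IsAlgebraic.isAlgebraic θ
    have h2 : Algebra.adjoin K {θ} = ⊤ :=
      (IntermediateField.adjoin_simple_eq_top_iff_of_isAlgebraic halg).1 htop
    have h3 : m ∈ Algebra.adjoin K {θ} := by rw [h2]; exact Algebra.mem_top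
    rw [Algebra.adjoin_singleton_eq_range_aeval] at h3
    obtain ⟨p, hp⟩ := h3
    have hp' : Polynomial.aeval θ p = m := hp
    obtain ⟨b, hb, hb2⟩ := IsLocalization.integerNormalization_spec (nonZeroDivisors R) p
    refine ⟨b, IsLocalization.integerNormalization (nonZeroDivisors R) p,
      nonZeroDivisors.ne_zero hb, ?_⟩
    have h4 : b • p = Polynomial.C (algebraMap R K b) * p := by
      rw [Algebra.smul_def, IsScalarTower.algebraMap_apply R K (Polynomial K)]
      rfl
    rw [← Polynomial.aeval_map_algebraMap K, hb2, h4, map_mul, Polynomial.aeval_C, hp',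
      ← IsScalarTower.algebraMap_apply, mul_comm]

theorem partA (L M : Type) [Field L] [CharZero L] [Field M] [Algebra L M] (s n : ℕ)
    (t : Fin s → M) (ht : AlgebraicIndependent L t) (hn : 0 < n)
    (hfin : Module.finrank (IntermediateField.adjoin L (Set.range t)) M = n) :
    ∃ (θ : M) (H : Polynomial (MvPolynomial (Fin s) L)), H.Monic ∧ H.natDegree = n ∧
      (∀ P : Polynomial (MvPolynomial (Fin s) L), ev t θ P = 0 ↔ H ∣ P) ∧
      (∀ m : M, ∃ (q : MvPolynomial (Fin s) L) (P : Polynomial (MvPolynomial (Fin s) L)),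
        q ≠ 0 ∧ m * aeval t q = ev t θ P) := by
  let K := IntermediateField.adjoin L (Set.range t)
  let t' : Fin s → K := fun i => ⟨t i, IntermediateField.subset_adjoin L _ (Set.mem_range_self i)⟩
  let f : MvPolynomial (Fin s) L →ₐ[L] K := aeval t'
  have hf : ∀ p, ((f p : K) : M) = aeval t p := by
    intro p
    have h1 : K.val.comp f = aeval t := by
      apply MvPolynomial.algHom_ext
      intro i
      show K.val (f (X i)) = _
      show K.val (aeval t' (X i)) = _
      rw [aeval_X, aeval_X]
      rfl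
    rw [← h1]
    rfl
  let i1 : Algebra (MvPolynomial (Fin s) L) K := f.toRingHom.toAlgebra
  let i2 : Algebra (MvPolynomial (Fin s) L) M := (aeval t).toRingHom.toAlgebra
  have i3 : IsScalarTower (MvPolynomial (Fin s) L) K M := by
    apply IsScalarTower.of_algebraMap_eq
    intro p
    exact (hf p).symm
  have hfinj : Function.Injective (algebraMap (MvPolynomial (Fin s) L) K) := by
    intro p q hpq
    apply ht
    have h1 : ((f p : K) : M) = ((f q : K) : M) := congrArg Subtype.val hpq
    rw [hf, hf] at h1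
    exact h1
  have i4 : FaithfulSMul (MvPolynomial (Fin s) L) K :=
    (faithfulSMul_iff_algebraMap_injective _ _).2 hfinj
  have i5 : IsFractionRing (MvPolynomial (Fin s) L) K := by
    apply IsFractionRing.of_field
    intro z
    obtain ⟨r, q, hrq⟩ := (IntermediateField.mem_adjoin_range_iff L t z.1).1 z.2
    refine ⟨r, q, ?_⟩
    apply Subtype.ext
    rw [hrq]
    show _ = ((f r / f q : K) : M)
    rw [IntermediateField.coe_div, hf, hf]
  have i6 : FiniteDimensional K M := by
    apply Module.finite_of_finrank_pos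
    rw [hfin]
    exact hn
  obtain ⟨θ, H, h1, h2, h3, h4⟩ := primInt (MvPolynomial (Fin s) L) K M
  exact ⟨θ, H, h1, h2.trans hfin, h3, h4⟩

end PartA

section PartB

variable {L M : Type} [Field L] [Field M] [Algebra L M] {s n : ℕ}

/-- the elements `t^a θ^i` -/
noncomputable def vv (t : Fin s → M) (θ : M) (n : ℕ) (p : Fin n × (Fin s →₀ ℕ)) : M :=
  (∏ j, t j ^ p.2 j) * θ ^ (p.1 : ℕ)

theorem ev_mon (t : Fin s → M) (θ : M) (p : Fin n × (Fin s →₀ ℕ)) (c : L) :
    ev t θ (Polynomial.monomial (p.1 : ℕ) (monomial p.2 c)) = c • vv t θ n p := by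
  unfold ev vv
  rw [Polynomial.coe_eval₂RingHom, Polynomial.eval₂_monomial]
  show aeval t (monomial p.2 c) * _ = _
  rw [aeval_monomial, Algebra.smul_def, mul_assoc, Finsupp.prod_fintype]
  intro i
  exact pow_zero _

theorem vv_ind (t : Fin s → M) (θ : M) (H : Polynomial (MvPolynomial (Fin s) L)) (hH : H.Monic)
    (hn : H.natDegree = n) (hker : ∀ P : Polynomial (MvPolynomial (Fin s) L),
      ev t θ P = 0 → H ∣ P) : LinearIndependent L (vv t θ n) := by
  classical
  rw [linearIndependent_iff']
  intro S g hg p hp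
  set P : Polynomial (MvPolynomial (Fin s) L) :=
    ∑ q ∈ S, Polynomial.monomial (q.1 : ℕ) (monomial q.2 (g q)) with hP
  have h1 : ev t θ P = 0 := by
    rw [hP, map_sum, ← hg]
    exact Finset.sum_congr rfl fun q _ => ev_mon t θ q (g q)
  have h2 : P.degree < H.degree := by
    rw [Polynomial.degree_eq_natDegree hH.ne_zero, hn, ← Polynomial.mem_degreeLT, hP]
    exact Submodule.sum_mem _ fun q _ => Polynomial.monomial_coe_mem_degreeLT q.1 _
  have h3 : P = 0 := Polynomial.eq_zero_of_dvd_of_degree_lt (hker P h1) h2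
  have h4 : coeff p.2 (P.coeff (p.1 : ℕ)) = g p := by
    rw [hP, Polynomial.finsetSum_coeff, coeff_sum, Finset.sum_eq_single p]
    · rw [Polynomial.coeff_monomial, if_pos rfl, coeff_monomial, if_pos rfl]
    · intro q _ hq
      rw [Polynomial.coeff_monomial]
      split_ifs with h5
      · rw [coeff_monomial, if_neg]
        intro h6
        apply hq
        exact Prod.ext (Fin.ext h5) h6
      · rw [coeff_zero]
    · intro h
      exact absurd hp h
  rw [← h4, h3, Polynomial.coeff_zero, coeff_zero]

/-- the value at `1 ⊗ t`, `1 ⊗ θ` -/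
noncomputable def ev1 (L1 : Type) [Field L1] [Algebra L L1] (t : Fin s → M) (θ : M) :
    Polynomial (MvPolynomial (Fin s) L1) →+* L1 ⊗[L] M :=
  Polynomial.eval₂RingHom (aeval (fun j => (1 : L1) ⊗ₜ[L] t j)).toRingHom ((1 : L1) ⊗ₜ[L] θ)

theorem ev1_map (L1 : Type) [Field L1] [Algebra L L1] (t : Fin s → M) (θ : M)
    (P : Polynomial (MvPolynomial (Fin s) L)) :
    ev1 L1 t θ (P.map (map (algebraMap L L1))) = (1 : L1) ⊗ₜ[L] ev t θ P := by
  have h : (ev1 L1 t θ).comp (Polynomial.mapRingHom (map (algebraMap L L1))) =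
      (Algebra.TensorProduct.includeRight : M →ₐ[L] L1 ⊗[L] M).toRingHom.comp (ev t θ) := by
    apply Polynomial.ringHom_ext'
    · apply MvPolynomial.ringHom_ext
      · intro c
        simp [ev1, ev]
      · intro j
        simp [ev1, ev]
    · simp [ev1, ev]
  exact RingHom.congr_fun h P

theorem ev1_mon (L1 : Type) [Field L1] [Algebra L L1] (t : Fin s → M) (θ : M)
    (p : Fin n × (Fin s →₀ ℕ)) (c : L1) :
    ev1 L1 t θ (Polynomial.monomial (p.1 : ℕ) (monomial p.2 c)) =
      c • ((1 : L1) ⊗ₜ[L] vv t θ n p) := by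
  have h1 : (1 : L1) ⊗ₜ[L] vv t θ n p =
      (∏ j, ((1 : L1) ⊗ₜ[L] t j) ^ p.2 j) * ((1 : L1) ⊗ₜ[L] θ) ^ (p.1 : ℕ) := by
    show (Algebra.TensorProduct.includeRight : M →ₐ[L] L1 ⊗[L] M) (vv t θ n p) = _
    unfold vv
    rw [map_mul, map_prod, map_pow]
    congr 1
    exact Finset.prod_congr rfl fun j _ => map_pow _ _ _
  unfold ev1
  rw [Polynomial.coe_eval₂RingHom, Polynomial.eval₂_monomial]
  show aeval _ (monomial p.2 c) * _ = _
  rw [aeval_monomial, h1, Algebra.smul_def, mul_assoc, Finsupp.prod_fintype]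
  intro i
  exact pow_zero _

theorem ev1_inj (L1 : Type) [Field L1] [Algebra L L1] (t : Fin s → M) (θ : M)
    (hv : LinearIndependent L (vv t θ n)) (P : Polynomial (MvPolynomial (Fin s) L1))
    (hP : P.natDegree < n) (h0 : ev1 (L := L) L1 t θ P = 0) : P = 0 := by
  classical
  have hw : LinearIndependent L1 (fun p => (1 : L1) ⊗ₜ[L] vv t θ n p) :=
    Module.Flat.linearIndependent_one_tmul hv
  rw [linearIndependent_iff'] at hw
  set T : Finset (Fin s →₀ ℕ) := Finset.univ.biUnion (fun i : Fin n => (P.coeff (i : ℕ)).support)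
    with hT
  have h1 : P = ∑ p ∈ (Finset.univ : Finset (Fin n)) ×ˢ T,
      Polynomial.monomial (p.1 : ℕ) (monomial p.2 (coeff p.2 (P.coeff (p.1 : ℕ)))) := by
    rw [Finset.sum_product]
    conv_lhs => rw [P.as_sum_range' n hP, ← Fin.sum_univ_eq_sum_range
      (fun i => Polynomial.monomial i (P.coeff i))]
    apply Finset.sum_congr rfl
    intro i _
    show (Polynomial.monomial (i : ℕ)) (P.coeff (i : ℕ)) =
      ∑ y ∈ T, Polynomial.monomial (i : ℕ) (monomial y (coeff y (P.coeff (i : ℕ))))
    rw [← map_sum (Polynomial.monomial (i : ℕ))]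
    congr 1
    conv_lhs => rw [(P.coeff (i : ℕ)).as_sum]
    apply Finset.sum_subset
    · rw [hT]
      exact Finset.subset_biUnion_of_mem (fun i : Fin n => (P.coeff (i : ℕ)).support)
        (Finset.mem_univ i)
    · intro a _ ha
      rw [notMem_support_iff.1 ha, monomial_zero]
  have h2 := hw (Finset.univ ×ˢ T) (fun p => coeff p.2 (P.coeff (p.1 : ℕ))) (by
    rw [← h0]
    conv_rhs => rw [h1]
    rw [map_sum]
    exact Finset.sum_congr rfl fun p _ => (ev1_mon L1 t θ p _).symm)
  rw [h1]
  apply Finset.sum_eq_zero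
  intro p hp
  rw [h2 p hp, monomial_zero, Polynomial.monomial_zero_right]

theorem irr_map (L1 : Type) [Field L1] [Algebra L L1] [IsDomain (L1 ⊗[L] M)] (t : Fin s → M)
    (θ : M) (H : Polynomial (MvPolynomial (Fin s) L)) (hH : H.Monic) (hn : H.natDegree = n)
    (hn0 : 0 < n) (hker : ∀ P : Polynomial (MvPolynomial (Fin s) L), ev t θ P = 0 ↔ H ∣ P) :
    Irreducible (H.map (map (algebraMap L L1))) := by
  have hv : LinearIndependent L (vv t θ n) := vv_ind t θ H hH hn fun P h => (hker P).1 h
  have hH1 : (H.map (map (algebraMap L L1))).Monic := hH.map _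
  have hd : (H.map (map (algebraMap L L1))).natDegree = n := by rw [hH.natDegree_map, hn]
  rw [hH1.irreducible_iff_natDegree]
  constructor
  · intro h
    rw [h, Polynomial.natDegree_one] at hd
    omega
  · intro f g hf hg hfg
    by_contra hcon
    rw [not_or] at hcon
    have h1 : f.natDegree + g.natDegree = n := by rw [← hf.natDegree_mul hg, hfg, hd]
    have h2 : ev1 (L := L) L1 t θ f * ev1 (L := L) L1 t θ g = 0 := by
      rw [← map_mul, hfg, ev1_map, (hker H).2 dvd_rfl, TensorProduct.tmul_zero]
    rcases mul_eq_zero.1 h2 with h | h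
    · exact hf.ne_zero (ev1_inj L1 t θ hv f (by omega) h)
    · exact hg.ne_zero (ev1_inj L1 t θ hv g (by omega) h)

end PartB

/-- REG -/
theorem reg : RegStmt := by
  intro L M _ _ _ _ s n t hdom ht hn hfin
  obtain ⟨θ, H, h1, h2, h3, h4⟩ := partA L M s n t ht hn hfin
  exact ⟨θ, H, h1, h2, h3, h4, irr_map (AlgebraicClosure L) t θ H h1 h2 hn h3⟩

end Pool.Agent.PRP.H63
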